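import Pool.Agent.Y818.IC.PEELJ
import Pool.Agent.Y818.IC.AUT
import Pool.Agent.Y818.IC.STEP
import Pool.Agent.Y818.IC.SIZE
import Pool.Agent.Y818.IC.FIB
import Pool.Agent.Y818.IC.HALF
import Pool.Agent.Y818.IC.PRODJ
import Pool.Agent.Y818.IC.SW
import Pool.Agent.Y818.IC.MUF
import Pool.Agent.Y818.IC.MU1
import Pool.Agent.Y818.IC.FUN
import Pool.Agent.Y818.IC.SEQ

/-!
# Equidistribution of Galois orbits of special points with isolated coordinates

`Y(1) = SL₂(ℤ) \ ℍ` is identified with `ℂ` by the modular function `j = E₄³ / Δ`, so that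
`Y(1)ⁿ = ℂⁿ`.  A special point of `Y(1)ⁿ` is a vector `v` of singular moduli, `v k ∈ sing (D k)`:
`v k = j(τ)` for a zero `τ` of a primitive polynomial `a X² + b X + c` of discriminant `D k`.
`mu` is the image in `ℂ` of the measure `(3/π) dx dy / y²` on the fundamental domain (it has total
mass one, see `mu_univ`), and the Galois orbit of `v` over the number field `F ⊆ ℂ` is the set
`orb F.fixingSubgroup v` of the vectors `(σ (v 1), …, σ (v n))` for the automorphisms `σ` of `ℂ`
over `F`.

The coordinate `k` is isolated from a set of coordinates if its CM field `ℚ(√(D k))` is different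
from theirs, or, more generally, if the conductors are nearly coprime: see `Isolated`.

Published theorems used as hypotheses: `CMTheory` (main theorem of complex multiplication:
singular moduli of discriminant `D` are permuted by the automorphisms of `ℂ`, transitively and
commutatively by those over `ℚ(√D)`, and the others invert them), `GenusTheory`,
`ClassNumberBound`, `RingClassFields`, and `SmallIndexDuke η` (Duke's theorem for the orbits of
subgroups of index at most `|D|^η`).

Proof.  Let `τ` be an automorphism which is the identity on the CM field of the coordinate `k` and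
not on that of the coordinate `l`.  For `g` over both fields `g · τ g τ⁻¹` is the square of `g` on
the coordinate `k` and trivial on the coordinate `l`.  By iteration the stabilizer of the other
coordinates acts on the coordinate `k` through a subgroup of the class group of index `|D|^{o(1)}`.

Parts of the proof by helpers 15, 30, 73, 237, 672, 794, 810.
-/

set_option autoImplicit false

open MeasureTheory Filter

namespace Pool.Agent.Results.MP_ad7a55_nt.IsolatedCoordinates

open Pool.Agent.Y818.IC

/-- `mu` is a probability measure (and `j` is measurable, so that `mu` is the image measure). -/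
theorem mu_univ : Measurable j ∧ mu Set.univ = 1 := mu1

/-- pairwise different CM fields: the coordinates can be ordered as required -/
theorem ordered_of_pairwise {n : ℕ} (η : ℝ) (D : Fin n → ℤ)
    (h : ∀ k l, k ≠ l → ¬ IsSquare (D k * D l)) : Ordered η D := by
  refine ⟨Equiv.refl _, fun k => Or.inl ?_⟩
  intro l hl
  simp only [Equiv.coe_refl, Finset.image_id, Finset.mem_Iio, id] at hl ⊢
  exact h l k (ne_of_lt hl)

theorem result (cm : CMTheory) (genus : GenusTheory) (cls : ClassNumberBound)
    (ring : RingClassFields) (η : ℝ) (hη : 0 < η) (duke : SmallIndexDuke η) :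
    -- (1) An isolated coordinate is asymptotically independent of the others.
    (∀ (n : ℕ) (F : IntermediateField ℚ ℂ), FiniteDimensional ℚ F →
      ∀ f : ℂ → ℝ, Continuous f → HasCompactSupport f → ∀ ε : ℝ, 0 < ε →
      ∃ B : ℝ, ∀ (D : Fin n → ℤ) (v : Fin n → ℂ), (∀ l, D l < 0 ∧ v l ∈ sing (D l)) →
        ∀ (k : Fin n) (A : Finset (Fin n)), k ∉ A → Isolated (η / 4) D k A → B ≤ |(D k : ℝ)| →
        ∀ φ : (Fin n → ℂ) → ℝ, (∀ w, |φ w| ≤ 1) →
          (∀ w w', (∀ l ∈ A, w l = w' l) → φ w = φ w') →
          |avg (orb F.fixingSubgroup v) (fun w => φ w * f (w k)) -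
            avg (orb F.fixingSubgroup v) φ * ∫ x, f x ∂mu| ≤ ε) ∧
    -- (2) Pairwise different CM fields.
    (∀ (n : ℕ) (F : IntermediateField ℚ ℂ), FiniteDimensional ℚ F →
      ∀ (v : ℕ → Fin n → ℂ) (D : ℕ → Fin n → ℤ), (∀ i l, D i l < 0 ∧ v i l ∈ sing (D i l)) →
        (∀ (k : Fin n) (c : ℂ), {i | v i k = c}.Finite) →
        (∀ i k l, k ≠ l → ¬ IsSquare (D i k * D i l)) →
        ∀ f : (Fin n → ℂ) → ℝ, Continuous f → HasCompactSupport f →
          Tendsto (fun i => avg (orb F.fixingSubgroup (v i)) f) atTop
            (nhds (∫ w, f w ∂(Measure.pi fun _ : Fin n => mu)))) ∧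
    -- (3) The general form: some order of the coordinates.
    (∀ (n : ℕ) (F : IntermediateField ℚ ℂ), FiniteDimensional ℚ F →
      ∀ (v : ℕ → Fin n → ℂ) (D : ℕ → Fin n → ℤ), (∀ i l, D i l < 0 ∧ v i l ∈ sing (D i l)) →
        (∀ (k : Fin n) (c : ℂ), {i | v i k = c}.Finite) →
        (∀ i, ∃ π : Equiv.Perm (Fin n), ∀ k : Fin n,
          Isolated (η / 4) (D i) (π k) ((Finset.Iio k).image π)) →
        ∀ f : (Fin n → ℂ) → ℝ, Continuous f → HasCompactSupport f →
          Tendsto (fun i => avg (orb F.fixingSubgroup (v i)) f) atTop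
            (nhds (∫ w, f w ∂(Measure.pi fun _ : Fin n => mu)))) := by
  have hpeel : S_PEEL (η / 4) :=
    peelj cm genus cls ring aut (size step) fib half η hη duke
  have hall : S_ALLF (η / 4) := FUN cm sw muf (η / 4) (prodj cm (η / 4) hpeel)
  refine ⟨hpeel, ?_, ?_⟩
  · intro n F hF v D hv hc hD f hfc hfs
    exact seq cm (η / 4) hall n F hF v D hv hc
      (fun i => ordered_of_pairwise _ (D i) (hD i)) f hfc hfs
  · intro n F hF v D hv hc hD f hfc hfs
    exact seq cm (η / 4) hall n F hF v D hv hc hD f hfc hfs

end Pool.Agent.Results.MP_ad7a55_nt.IsolatedCoordinates
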